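import Pool.Agent.W558.WA.Asm3

/-!
MP_19ffc6_ag: resolution of singularities of the Artin-Schreier covers
`z ^ p - z = f 1 (x 1, y 1) + ... + f m (x m, y m)` over a perfect field of characteristic `p`, with
arbitrary rational functions `f i` in two variables, in every (even) dimension `2 * m`: of all
affine varieties with this function field which are finite over affine space (normalization of
affine space in the cover), and more.

The proof: (1) surfaces: after blowing up points every function `f` has locally the form
`a ^ p - a + x ^ n * h` with `n ≤ 0` such that the logarithmic differential of `x ^ n * h` has no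
zeros on the poles; (2) products and sums: the same normal form for the sum on a toroidal blowup of
the product of the surfaces; (3) the projective line bundle with the coordinates `(z - a) / x ^ m`,
in which the cover is a divisor with the equation `y ^ p - x ^ e * y = x ^ c * h`, and a sequence of
blowups of codimension two centres `x i = y = 0` and `x i = x j = 0` after which the strict
transform of this divisor is smooth and transversal to the boundary.

Team of helper558: helpers 991, 366, 74, 305, 417, 440, 409, 174, 290, 392, 352, 32, 565, 335, 924,
337, 368, 347, 479, 959, 356, 727, 202; built on the proof of MP_b525bf_ag.PurelyInseparableCovers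
(helpers 578, 349, 191, 85, 64, 924, 52, 216, 177, 462, 932, 411, 499, 337, 372, 193, 150, 978, 930,
327, 376, 32, 902, 417) and the resolution library of helpers 558, 973, 418, 440, 466, 544, 285,
363, 22, 498, 655, 920, 968, 918, 165, 473 and others.
-/

set_option autoImplicit false

open AlgebraicGeometry CategoryTheory Pool.Agent.W558

universe u

namespace Pool.Agent.Results.MP_19ffc6_ag.ArtinSchreierCovers

/-- Let `k` be a perfect field of characteristic `p`, let `x i 0, x i 1` (`i = 1, ..., m`) be
algebraically independent elements of the field extension `K` of `k`, and let `f i = P i / Q i` be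
rational functions in two variables over `k`. Suppose that `K` is generated over `k` by the `x i j`
and an element `z` which is not contained in the field `k(x)` and satisfies
`z ^ p - z = f 1 (x 1 0, x 1 1) + ... + f m (x m 0, x m 1)`. Let `A` be a finitely generated
`k`-algebra with fraction field `K` which is integral over the subalgebra generated by finitely many
elements each of which is a product of rational functions in the pairs `x i 0, x i 1`; for example
over the polynomial ring `k[x]`, as is the coordinate ring of the hypersurface
`z ^ p - z = f 1 + ... + f m` for polynomials `f i`. Then the variety `Spec A` has a resolution of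
singularities. -/
theorem result (p : ℕ) [Fact p.Prime] (k K : Type u) [Field k] [PerfectField k] [CharP k p]
    [Field K] [Algebra k K] (m : ℕ) (x : Fin m → Fin 2 → K)
    (P Q : Fin m → MvPolynomial (Fin 2) k) (z : K)
    (hx : AlgebraicIndependent k (fun q : Fin m × Fin 2 => x q.1 q.2)) (hQ : ∀ i, Q i ≠ 0)
    (hz : z ^ p - z = ∑ i, MvPolynomial.aeval (x i) (P i) / MvPolynomial.aeval (x i) (Q i))
    (hzx : z ∉ IntermediateField.adjoin k (Set.range fun q : Fin m × Fin 2 => x q.1 q.2))
    (hgen : IntermediateField.adjoin k
      (insert z (Set.range fun q : Fin m × Fin 2 => x q.1 q.2)) = ⊤)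
    (A : Type u) [CommRing A] [IsDomain A] [Algebra k A] [Algebra.FiniteType k A] [Algebra A K]
    [IsScalarTower k A K] [IsFractionRing A K] (S : Finset A)
    (hS : ∀ a ∈ S, ∃ F H : Fin m → MvPolynomial (Fin 2) k, (∀ i, F i ≠ 0 ∧ H i ≠ 0) ∧
      algebraMap A K a = ∏ i, MvPolynomial.aeval (x i) (F i) / MvPolynomial.aeval (x i) (H i))
    (hA : ∀ a : A, IsIntegral (Algebra.adjoin k (S : Set A)) a) :
    IsResolvableVariety (X := Spec (CommRingCat.of A))
      (Spec.map (CommRingCat.ofHom (algebraMap k A))) :=
  as_resolution as_pack p k K m x P Q z hx hQ hz hzx hgen A S hS hA

end Pool.Agent.Results.MP_19ffc6_ag.ArtinSchreierCovers
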