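import Pool.Agent.W559.Vf.E10

set_option autoImplicit false

open AlgebraicGeometry CategoryTheory MvPolynomial Pool.Agent.H920R2

universe u

namespace Pool.Agent.Results.MP_19ffc6_ag.LinearVectorFields

variable {k : Type u} [Field k] {n : ℕ} {Λ : Type} [AddCommGroup Λ]

/-- The vector field `∑ i, (∑ j, M i j * X j + c i) * ∂/∂(X i)` of degree at most one on affine
`n`-space over `k`. -/
noncomputable def field (M : Matrix (Fin n) (Fin n) k) (c : Fin n → k) :
    Derivation k (MvPolynomial (Fin n) k) (MvPolynomial (Fin n) k) :=
  mkDerivation k fun i => ∑ j, C (M i j) * X j + C (c i)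

/-- The algebra of the constants of the vector field which have weight zero, when the coordinate
`X i` has the weight `w i`: the polynomials `f` with `field M c f = 0` all of whose monomials have
weight zero. -/
noncomputable def constants (M : Matrix (Fin n) (Fin n) k) (c : Fin n → k) (w : Fin n → Λ) :
    Subalgebra k (MvPolynomial (Fin n) k) where
  carrier := {f | field M c f = 0 ∧ IsWeightedHomogeneous w f 0}
  mul_mem' := by
    rintro a b ⟨ha, ha'⟩ ⟨hb, hb'⟩
    refine ⟨?_, ?_⟩
    · rw [Derivation.leibniz, ha, hb, smul_zero, smul_zero, add_zero]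
    · have h := ha'.mul hb'
      rwa [add_zero] at h
  add_mem' := by
    rintro a b ⟨ha, ha'⟩ ⟨hb, hb'⟩
    exact ⟨by rw [map_add, ha, hb, add_zero], ha'.add hb'⟩
  algebraMap_mem' := fun r => ⟨Derivation.map_algebraMap _ r, isWeightedHomogeneous_C w r⟩

/-- The quotient of affine `n`-space over `k` by the vector field and by the diagonalizable group
scheme with the group of characters `Λ`. -/
noncomputable def quot (M : Matrix (Fin n) (Fin n) k) (c : Fin n → k) (w : Fin n → Λ) :
    Scheme.{u} := Spec (CommRingCat.of (constants M c w))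

/-- The structure morphism of the quotient. -/
noncomputable def quotStr (M : Matrix (Fin n) (Fin n) k) (c : Fin n → k) (w : Fin n → Λ) :
    quot M c w ⟶ Spec (CommRingCat.of k) :=
  Spec.map (CommRingCat.ofHom (algebraMap k (constants M c w)))

/-- Let `k` be a field of characteristic `p`, let `M` be an `n × n`-matrix over `k` whose
characteristic polynomial splits over `k` and `c` a vector, let `Λ` be a finite abelian group and
let the coordinates `X i` of affine `n`-space have weights `w i` in `Λ` such that the vector field
`∑ i, (∑ j, M i j * X j + c i) * ∂/∂(X i)` preserves the weights. Then the quotient of affine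
`n`-space over `k` by the vector field and by the diagonalizable group scheme with the group of
characters `Λ` is a variety and has a resolution of singularities. -/
theorem result (p : ℕ) [Fact p.Prime] (k : Type u) [Field k] [CharP k p] (n : ℕ)
    (M : Matrix (Fin n) (Fin n) k) (c : Fin n → k) (hM : M.charpoly.Splits)
    (Λ : Type) [AddCommGroup Λ] [Finite Λ] (w : Fin n → Λ)
    (hw : ∀ i j, M i j ≠ 0 → w i = w j) (hc : ∀ i, c i ≠ 0 → w i = 0) :
    IsVariety (quotStr M c w) ∧
    ∃ (Y : Scheme.{u}) (π : Y ⟶ quot M c w),
      AlgebraicGeometry.IsIntegral Y ∧ AlgebraicGeometry.IsProper π ∧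
      AlgebraicGeometry.Smooth (π ≫ quotStr M c w) ∧
      ∃ U : (quot M c w).Opens, Dense (U : Set (quot M c w)) ∧ IsIso (π ∣_ U) := by
  have hp : p.Prime := Fact.out
  have hpk : (p : k) = 0 := CharP.cast_eq_zero k p
  have hA : ∀ x, x ∈ constants M c w ↔
      Pool.Agent.W559.Vf.fld M c x = 0 ∧ IsWeightedHomogeneous w x 0 := fun x => Iff.rfl
  have h1 : Algebra.FiniteType k (constants M c w) :=
    Pool.Agent.W559.Vf.finiteType_fld hp hpk _ hA
  exact ⟨isVariety_spec, Pool.Agent.W559.Vf.hasResolution_fld hp hpk hM hw hc _ hA⟩

end Pool.Agent.Results.MP_19ffc6_ag.LinearVectorFields
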