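import Pool.Agent.W558.WT.Quot2
import Pool.Agent.W558.WT.Asm3
import Pool.Agent.W348.WTM.Mod
import Pool.Agent.W135.WT.Fam

/-!
MP_19ffc6_ag: resolution of singularities for the quotients of products of surfaces of
characteristic `p` by elementary abelian `p`-groups which act factorwise, for example
`(X_1 × ... × X_n) / (ℤ/p)` with the diagonal action.

The proof: the function field of the quotient is a tower of Artin-Schreier extensions
`w ^ p - w = c_1 * f_1 + ... + c_n * f_n`, `c_i` in the prime field, `f_i` a function on the
surface `X_i / (ℤ/p)`. (1) Surfaces: after blowing up points of a smooth projective model `f_i` has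
locally the form `a ^ p - a + x ^ n * h` with `n ≤ 0` such that the logarithmic differential of
`x ^ n * h` has no zeros on the poles. (2) Normal form for all `f_i` in a tower: modulo the
functions which have already been adjoined, the function to be adjoined next has the same normal
form, at every point with the worst poles of one of the `f_i` (echelon form over the prime field).
(3) In the projective line bundle with the coordinates `(w - a) / x ^ m` the cover is the divisor
`y ^ p - x ^ e * y = x ^ c * h`, and a sequence of blowups of codimension two centres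
`x i = y = 0` and `x i = x j = 0` makes it smooth and transversal to the boundary. (4) Logarithmic
tangent vectors of the base which are killed by the logarithmic differential of the function can be
lifted to this smooth model, so the normal form of the remaining functions is preserved, and the
construction can be iterated.

Team of helper558: helpers 33, 369, 405, 368, 356, 29, 230, 32, 906, 191, 410, 435, 376, 382, 348,
135; built on the proof of MP_19ffc6_ag.ArtinSchreierCovers (helpers 991, 366, 74, 305, 417, 440,
409, 174, 290, 392, 352, 32, 565, 335, 924, 337, 368, 347, 479, 959, 356, 727, 202 and others).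
-/

set_option autoImplicit false

open AlgebraicGeometry CategoryTheory Pool.Agent.H920R2

universe u

namespace Pool.Agent.Results.MP_19ffc6_ag.SurfaceProductQuotients

/-- The algebra `B` with the homomorphisms `j i : A i → B` is the tensor product over `k` of the
algebras `A i`: homomorphisms `f i` from the `A i` to a commutative `k`-algebra `S` correspond to
homomorphisms `g` from `B` to `S`. So `Spec B` is the product of the `Spec (A i)` over `k`. -/
def IsTensorProduct {k : Type u} [Field k] {n : ℕ} {A : Fin n → Type u} [∀ i, CommRing (A i)]
    [∀ i, Algebra k (A i)] {B : Type u} [CommRing B] [Algebra k B] (j : ∀ i, A i →ₐ[k] B) :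
    Prop :=
  ∀ (S : Type u) [CommRing S] [Algebra k S] (f : ∀ i, A i →ₐ[k] S),
    ∃! g : B →ₐ[k] S, ∀ i a, g (j i a) = f i a

/-- The coordinate ring `k[H_0 / H_j, ..., H_N / H_j]` of the chart `H_j ≠ 0` of the projective
variety over `k` with the homogeneous coordinates `H_0, ..., H_N` in a field `K`. -/
def chart (k : Type u) {K : Type u} [Field k] [Field K] [Algebra k K] {N : ℕ}
    (H : Fin (N + 1) → K) (j : Fin (N + 1)) : Subalgebra k K :=
  Algebra.adjoin k (Set.range fun l => H l / H j)

/-- The quotient of the affine variety `Spec A` by the automorphism `σ` is birational to a smooth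
projective variety. Here `K` is the fraction field of `A`, the projective variety is given by
homogeneous coordinates `H_0, ..., H_N` in `K`: its charts are smooth over `k`, and its function
field, the field of quotients of elements of a chart, consists of the `σ`-invariant elements
`a / b` of `K`, `(σ a) / (σ b) = a / b`. For surfaces over perfect fields this condition is always
satisfied by the resolution of singularities of surfaces. -/
def HasSmoothProjectiveQuotient {k A : Type u} (K : Type u) [Field k] [CommRing A] [Algebra k A]
    [Field K] [Algebra k K] [Algebra A K] (σ : A ≃ₐ[k] A) : Prop :=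
  ∃ (N : ℕ) (H : Fin (N + 1) → K), (∀ l, H l ≠ 0) ∧
    (∀ j, Algebra.Smooth k (chart k H j)) ∧
    ∀ j (a b : A), b ≠ 0 → (σ a * b = a * σ b ↔
      ∃ u ∈ chart k H j, ∃ v ∈ chart k H j, v ≠ 0 ∧ algebraMap A K a / algebraMap A K b = u / v)

/-- The group `(ℤ/p)^n` acts on the tensor product `B` of the algebras `A i` factorwise:
`g = (g_1, ..., g_n)` acts by the automorphism which is equal to `(σ i) ^ (g_i)` on `A i`. -/
def ActsFactorwise {p n : ℕ} {k : Type u} [Field k] {A : Fin n → Type u} [∀ i, CommRing (A i)]
    [∀ i, Algebra k (A i)] {B : Type u} [CommRing B] [Algebra k B] (j : ∀ i, A i →ₐ[k] B)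
    (σ : ∀ i, A i ≃ₐ[k] A i) (act : (Fin n → ZMod p) → B ≃ₐ[k] B) : Prop :=
  ∀ g i a, act g (j i a) = j i ((σ i ^ (g i).val) a)

/-- The algebra of invariants of the automorphisms `act g`, `g ∈ G`. -/
def invariants {p n : ℕ} {k B : Type u} [Field k] [CommRing B] [Algebra k B]
    (act : (Fin n → ZMod p) → B ≃ₐ[k] B) (G : AddSubgroup (Fin n → ZMod p)) : Subalgebra k B where
  carrier := {b | ∀ g ∈ G, act g b = b}
  mul_mem' := fun ha hb g hg => by rw [map_mul, ha g hg, hb g hg]
  add_mem' := fun ha hb g hg => by rw [map_add, ha g hg, hb g hg]
  algebraMap_mem' := fun c g _ => AlgEquiv.commutes _ c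

/-- The structure morphism of the quotient of `Spec B` by `G`, the spectrum of the algebra of
invariants. -/
noncomputable def quotStr {p n : ℕ} {k B : Type u} [Field k] [CommRing B] [Algebra k B]
    (act : (Fin n → ZMod p) → B ≃ₐ[k] B) (G : AddSubgroup (Fin n → ZMod p)) :
    Spec (CommRingCat.of (invariants act G)) ⟶ Spec (CommRingCat.of k) :=
  Spec.map (CommRingCat.ofHom (algebraMap k (invariants act G)))

/-- Let `p` be a prime, `k` a perfect field of characteristic `p` and `Spec (A i)`, `i < n`, affine
surfaces over `k`: the `A i` are domains of finite type and of dimension 2 over `k`. Let `σ i` be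
automorphisms of `A i` over `k` with `(σ i) ^ p = 1` such that the quotient of `Spec (A i)` by
`σ i` is birational to a smooth projective surface (this is always the case). Let `Spec B` be the
product of the surfaces over `k`, assumed to be integral, and let `g ∈ (ℤ/p)^n` act on `B` by the
automorphism `act g` which is equal to `(σ i) ^ (g i)` on `A i`. Then for every subgroup `G` of
`(ℤ/p)^n`, for example the diagonal, the quotient of the product of the surfaces by `G` is of finite
type over `k` and has a resolution of singularities. -/
theorem result (p : ℕ) [Fact p.Prime] (k : Type u) [Field k] [CharP k p] [PerfectField k] (n : ℕ)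
    (A K : Fin n → Type u) [∀ i, CommRing (A i)] [∀ i, IsDomain (A i)] [∀ i, Algebra k (A i)]
    [∀ i, Algebra.FiniteType k (A i)] (hA : ∀ i, Algebra.trdeg k (A i) = 2) [∀ i, Field (K i)]
    [∀ i, Algebra k (K i)] [∀ i, Algebra (A i) (K i)] [∀ i, IsScalarTower k (A i) (K i)]
    [∀ i, IsFractionRing (A i) (K i)] (σ : ∀ i, A i ≃ₐ[k] A i) (hσ : ∀ i, σ i ^ p = 1)
    (hq : ∀ i, HasSmoothProjectiveQuotient (K i) (σ i))
    (B : Type u) [CommRing B] [IsDomain B] [Algebra k B] (j : ∀ i, A i →ₐ[k] B)
    (hj : IsTensorProduct j) (act : (Fin n → ZMod p) → B ≃ₐ[k] B)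
    (hact : ActsFactorwise j σ act) (G : AddSubgroup (Fin n → ZMod p)) :
    Algebra.FiniteType k (invariants act G) ∧ HasResolution (quotStr act G) := by
  have hj' : Pool.Agent.W558.WT.IsTP j := by
    refine ⟨fun S _ _ f => (hj S f).exists, fun S _ _ g g' h => ?_⟩
    exact (hj S fun i => g.comp (j i)).unique (fun i a => rfl) fun i a => (h i a).symm
  let sK : ∀ i, K i ≃ₐ[k] K i := fun i => IsFractionRing.algEquivOfAlgEquiv (σ i)
  have hsK : ∀ i a, sK i (algebraMap (A i) (K i) a) = algebraMap (A i) (K i) (σ i a) :=
    fun i a => IsFractionRing.algEquivOfAlgEquiv_algebraMap _ _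
  have hm : ∀ i, Algebra.trdeg k (Pool.Agent.W558.WT.fixF {sK i}) = 2 ∧
      Pool.Agent.W558.HasModel k (Pool.Agent.W558.WT.fixF {sK i}) := by
    intro i
    obtain ⟨N, H, h1, h2, h3⟩ := hq i
    exact Pool.Agent.W348.WTM.main p k (A i) (K i) (σ i) (sK i) (hsK i) (hσ i) (hA i) N H h1 h2 h3
  exact Pool.Agent.W558.quot2 Pool.Agent.W558.wt_pack Pool.Agent.W558.ws_pack
    Pool.Agent.W558.wt_gal Pool.Agent.W558.wt_fri Pool.Agent.W558.wt_art
    (Pool.Agent.W135.WT.Fam.main Pool.Agent.W558.wa_prod) p k n A K B j hj' σ hσ sK hsK
    (fun i => (hm i).1) (fun i => (hm i).2) G act hact (invariants act G) (fun b => Iff.rfl)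

end Pool.Agent.Results.MP_19ffc6_ag.SurfaceProductQuotients
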