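import Pool.Agent.W558.S.All
import Pool.Agent.W558.Var

set_option autoImplicit false

universe u

open AlgebraicGeometry CategoryTheory

namespace Pool.Agent.Results.MP_19ffc6_ag.TorusComplexityTwo

open Pool.Agent.W558

/-- Let `k` be a perfect field and let `A` be a finitely generated `k`-algebra which is a domain
and graded by `ℤ^r`, so that `X = Spec A` is an affine variety with an action of a torus. If the
action has complexity two, that is, if the field `E` of homogeneous fractions of degree zero has
transcendence degree two over `k`, and if `E` is the function field of a smooth projective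
surface, then `X` has a resolution of singularities. -/
theorem result {k A : Type u} [Field k] [PerfectField k] [CommRing A] [IsDomain A] [Algebra k A]
    [Algebra.FiniteType k A] {r : ℕ} (𝒜 : (Fin r → ℤ) → Submodule k A) [GradedAlgebra 𝒜]
    (h2 : Algebra.trdeg k (homFrac 𝒜) = 2) (hM : HasModel k (homFrac 𝒜)) :
    IsResolvableVariety (X := Spec (CommRingCat.of A))
      (Spec.map (CommRingCat.ofHom (algebraMap k A))) :=
  isResolvableVariety_spec (hasResolution_graded k A r 𝒜 h2 hM)

end Pool.Agent.Results.MP_19ffc6_ag.TorusComplexityTwo
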